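import Pool.Agent.H232Z.Zon.Harm

set_option autoImplicit false

theorem Pool.Agent.Results.MP_a2f83a_an.ASmallNodalSet.result (n : ℕ) (hn : 3 ≤ n) (N : ℕ)
    (ε : ENNReal) (hε : 0 < ε) : ∃ u : EuclideanSpace ℝ (Fin n) → ℝ,
      InnerProductSpace.HarmonicOnNhd u (Metric.ball 0 1) ∧
      (∃ x ∈ Metric.ball (0 : EuclideanSpace ℝ (Fin n)) 1, u x ≠ 0) ∧
      (∀ k < N, iteratedFDeriv ℝ k u 0 = 0) ∧
      MeasureTheory.Measure.hausdorffMeasure ((n : ℝ) - 2)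
        {x : EuclideanSpace ℝ (Fin n) | ‖x‖ = 1 / 2 ∧ u x = 0} < ε := by
  obtain ⟨d, rfl⟩ : ∃ d, n = d + 3 := ⟨n - 3, by omega⟩
  rw [show ((d + 3 : ℕ) : ℝ) - 2 = (d : ℝ) + 1 by push_cast; ring]
  exact Pool.Agent.H232Z.Zon.main N ε hε
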